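import Mathlib

set_option autoImplicit false

namespace Pool.Agent.MP_8df504_an

open Set

/-- continuous self-map of `[0,1]` that is affine on each piece of a finite partition -/
def IsBrokenLinear (T : ℝ → ℝ) : Prop :=
  ContinuousOn T (Icc 0 1) ∧ MapsTo T (Icc 0 1) (Icc 0 1) ∧
    ∃ (m : ℕ) (a : Fin (m + 1) → ℝ), StrictMono a ∧ a 0 = 0 ∧ a (Fin.last m) = 1 ∧
      ∀ j : Fin m, ∃ c d : ℝ, ∀ x ∈ Icc (a j.castSucc) (a j.succ), T x = c * x + d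

/-- the average `A_N(R,p)` -/
noncomputable def ergAvg (T : ℝ → ℝ) (R : Set ℝ) (p : ℝ) (N : ℕ) : ℝ :=
  (1 / (N : ℝ)) * ∑ i ∈ Finset.Icc 1 N, R.indicator (fun _ => (1 : ℝ)) (T^[i] p)

end Pool.Agent.MP_8df504_an
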