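import Mathlib
import Pool.Agent.MP_8df504_an.Defs

set_option autoImplicit false

namespace Pool.Agent.MP_8df504_an

open Set Filter Topology MeasureTheory

noncomputable def T0 (x : ℝ) : ℝ := max (x / 2) ((3 * x - 1) / 2)

lemma T0_low {x : ℝ} (h : x ≤ 1 / 2) : T0 x = x / 2 := max_eq_left (by linarith)

lemma T0_high {x : ℝ} (h : 1 / 2 ≤ x) : T0 x = (3 * x - 1) / 2 := max_eq_right (by linarith)

lemma T0_mapsTo : MapsTo T0 (Icc 0 1) (Icc 0 1) := by
  intro x hx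
  rcases le_total x (1 / 2) with h | h
  · rw [T0_low h]; constructor <;> linarith [hx.1, hx.2]
  · rw [T0_high h]; constructor <;> linarith [hx.1, hx.2]

lemma T0_broken : IsBrokenLinear T0 := by
  refine ⟨by unfold T0; fun_prop, T0_mapsTo, 2, ![0, 1 / 2, 1], ?_, rfl, rfl, ?_⟩
  · rw [Fin.strictMono_iff_lt_succ]
    intro i
    fin_cases i <;> simp <;> norm_num
  · intro j
    fin_cases j
    · refine ⟨1 / 2, 0, fun x hx => ?_⟩
      rw [T0_low (by simpa using hx.2)]; ring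
    · refine ⟨3 / 2, -1 / 2, fun x hx => ?_⟩
      rw [T0_high (by simpa using hx.1)]; ring

lemma T0_bij : BijOn T0 (Icc 0 1) (Icc 0 1) := by
  refine ⟨T0_mapsTo, ?_, ?_⟩
  · intro x _ y _ hxy
    rcases le_total x (1 / 2) with h | h <;> rcases le_total y (1 / 2) with h' | h'
    · rw [T0_low h, T0_low h'] at hxy; linarith
    · rw [T0_low h, T0_high h'] at hxy; linarith
    · rw [T0_high h, T0_low h'] at hxy; linarith
    · rw [T0_high h, T0_high h'] at hxy; linarith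
  · intro y hy
    rcases le_total y (1 / 4) with h | h
    · exact ⟨2 * y, ⟨by linarith [hy.1], by linarith⟩, by rw [T0_low (by linarith)]; ring⟩
    · exact ⟨(2 * y + 1) / 3, ⟨by linarith, by linarith [hy.2]⟩,
        by rw [T0_high (by linarith)]; ring⟩

lemma T0_iter_low {y : ℝ} (h0 : 0 ≤ y) (h : y ≤ 1 / 2) (i : ℕ) : T0^[i] y = y / 2 ^ i := by
  induction i with
  | zero => simp
  | succ i ih =>
    rw [Function.iterate_succ_apply', ih, T0_low]
    · rw [pow_succ]; field_simp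
    · have : y / 2 ^ i ≤ y := div_le_self h0 (one_le_pow₀ (by norm_num))
      linarith

lemma T0_pos {p : ℝ} (h : 0 < p) (i : ℕ) : 0 < T0^[i] p := by
  induction i with
  | zero => simpa
  | succ i ih =>
    rw [Function.iterate_succ_apply']
    exact lt_max_of_lt_left (by linarith)

lemma T0_enters {p : ℝ} (h1 : p < 1) : ∃ n, T0^[n] p ≤ 1 / 2 := by
  by_contra hc
  push Not at hc
  have key : ∀ n, 1 - T0^[n] p = (3 / 2) ^ n * (1 - p) := by
    intro n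
    induction n with
    | zero => simp
    | succ n ih =>
      rw [Function.iterate_succ_apply', T0_high (hc n).le, pow_succ]
      linarith
  obtain ⟨n, hn⟩ := pow_unbounded_of_one_lt (1 / (1 - p)) (by norm_num : (1 : ℝ) < 3 / 2)
  have h2 := key n
  have h3 := hc n
  rw [div_lt_iff₀ (by linarith)] at hn
  linarith

/-- every point of `(0,1)` eventually runs along `q / 2^(s+i)` with `q ∈ (1/2,1]` -/
lemma T0_tail {p : ℝ} (h0 : 0 < p) (h1 : p < 1) :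
    ∃ (n s : ℕ) (q : ℝ), 1 / 2 < q ∧ q ≤ 1 ∧ ∀ i, T0^[n + i] p = q / 2 ^ (s + i) := by
  obtain ⟨n, hn⟩ := T0_enters h1
  have hy := T0_pos h0 n
  obtain ⟨s, hs1, hs2⟩ := exists_nat_pow_near_of_lt_one hy (by linarith)
    (by norm_num : (0 : ℝ) < 1 / 2) (by norm_num)
  refine ⟨n, s, T0^[n] p * 2 ^ s, ?_, ?_, fun i => ?_⟩
  · rw [one_div_pow, div_lt_iff₀ (by positivity), pow_succ] at hs1; linarith
  · rw [one_div_pow, le_div_iff₀ (by positivity)] at hs2; linarith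
  · rw [add_comm n i, Function.iterate_add_apply, T0_iter_low hy.le hn, pow_add]
    field_simp

lemma no_limit (χ : ℕ → ℝ) (h0 : ∀ i, 0 ≤ χ i) (h1 : ∀ i, χ i ≤ 1) (c : ℕ)
    (hin : ∀ j i : ℕ, 9 ^ j + c ≤ i → i + c ≤ 3 * 9 ^ j → χ i = 1)
    (hout : ∀ j i : ℕ, 3 * 9 ^ j + c ≤ i → i + c ≤ 9 ^ (j + 1) → χ i = 0) :
    ¬ ∃ L, Tendsto (fun N : ℕ => (1 / (N : ℝ)) * ∑ i ∈ Finset.Icc 1 N, χ i) atTop (𝓝 L) := by
  rintro ⟨L, hL⟩
  obtain ⟨N0, hN0⟩ := (Metric.tendsto_atTop.1 hL) (1 / 20) (by norm_num)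
  obtain ⟨j, hj⟩ := pow_unbounded_of_one_lt (N0 + 100 * c + 100) (by norm_num : (1 : ℕ) < 9)
  set M := 9 ^ j with hM
  have e9 : 9 ^ (j + 1) = 9 * M := by rw [pow_succ]; ring
  have a1 := hN0 (3 * M) (by omega)
  have a2 := hN0 (9 * M) (by omega)
  have b1 : ((2 * M - 2 * c : ℕ) : ℝ) ≤ ∑ i ∈ Finset.Icc 1 (3 * M), χ i := by
    calc ((2 * M - 2 * c : ℕ) : ℝ) = ∑ i ∈ Finset.Ico (M + c) (3 * M - c), χ i := by
          rw [Finset.sum_congr rfl (g := fun _ => (1 : ℝ))]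
          · simp only [Finset.sum_const, Nat.card_Ico, nsmul_eq_mul, mul_one]
            congr 1; omega
          · intro i hi
            rw [Finset.mem_Ico] at hi
            exact hin j i (by omega) (by omega)
      _ ≤ _ := by
          refine Finset.sum_le_sum_of_subset_of_nonneg ?_ fun i _ _ => h0 i
          intro i hi
          rw [Finset.mem_Ico] at hi
          rw [Finset.mem_Icc]; omega
  have b2 : ∑ i ∈ Finset.Icc 1 (9 * M), χ i ≤ ((3 * M + 2 * c : ℕ) : ℝ) := by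
    have hsub : Finset.Icc (3 * M + c) (9 * M - c) ⊆ Finset.Icc 1 (9 * M) := by
      intro i hi
      rw [Finset.mem_Icc] at hi ⊢; omega
    rw [← Finset.sum_sdiff hsub, Finset.sum_eq_zero (s := Finset.Icc (3 * M + c) (9 * M - c)),
      add_zero]
    · calc _ ≤ ∑ _i ∈ Finset.Icc 1 (9 * M) \ Finset.Icc (3 * M + c) (9 * M - c), (1 : ℝ) :=
            Finset.sum_le_sum fun i _ => h1 i
        _ ≤ _ := by
            simp only [Finset.sum_const, nsmul_eq_mul, mul_one, Nat.cast_le]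
            rw [Finset.card_sdiff_of_subset hsub, Nat.card_Icc, Nat.card_Icc]
            omega
    · intro i hi
      rw [Finset.mem_Icc] at hi
      exact hout j i (by omega) (by omega)
  rw [Nat.cast_sub (by omega)] at b1
  push_cast at a1 a2 b1 b2
  have hMr : (N0 : ℝ) + 100 * c + 100 < (M : ℝ) := by exact_mod_cast hj
  have hN0r : (0 : ℝ) ≤ N0 := by positivity
  have hcr : (0 : ℝ) ≤ c := by positivity
  have hMpos : (0 : ℝ) < M := by linarith
  rw [Real.dist_eq, abs_lt] at a1 a2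
  have c1 : (3 : ℝ) / 5 ≤ 1 / (3 * M) * ∑ i ∈ Finset.Icc 1 (3 * M), χ i := by
    rw [one_div, ← div_eq_inv_mul, le_div_iff₀ (by positivity)]; linarith
  have c2 : 1 / (9 * M) * ∑ i ∈ Finset.Icc 1 (9 * M), χ i ≤ (2 : ℝ) / 5 := by
    rw [one_div, ← div_eq_inv_mul, div_le_iff₀ (by positivity)]; linarith
  linarith [a1.1, a1.2, a2.1, a2.2]

def R1 : Set ℝ := ⋃ j : ℕ, Ioo (1 / 2 ^ (3 * 9 ^ j)) (1 / 2 ^ (9 ^ j))

lemma mem_R1 (q : ℝ) (h1 : 1 / 2 < q) (h2 : q ≤ 1) (t j : ℕ) (a : 9 ^ j < t) (b : t < 3 * 9 ^ j) :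
    q / 2 ^ t ∈ R1 := by
  refine mem_iUnion.2 ⟨j, ?_, ?_⟩
  · have : (2 : ℝ) ^ (t + 1) ≤ 2 ^ (3 * 9 ^ j) := pow_le_pow_right₀ (by norm_num) b
    rw [div_lt_div_iff₀ (by positivity) (by positivity)]
    rw [pow_succ] at this
    have : (0 : ℝ) < 2 ^ t := by positivity
    nlinarith
  · have : (2 : ℝ) ^ (9 ^ j) < 2 ^ t := pow_lt_pow_right₀ (by norm_num) a
    rw [div_lt_div_iff₀ (by positivity) (by positivity)]
    have : (0 : ℝ) < 2 ^ (9 ^ j) := by positivity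
    nlinarith

lemma not_mem_R1 (q : ℝ) (h1 : 1 / 2 < q) (h2 : q ≤ 1) (t j : ℕ) (a : 3 * 9 ^ j ≤ t)
    (b : t < 9 ^ (j + 1)) : q / 2 ^ t ∉ R1 := by
  intro h
  obtain ⟨k, hk1, hk2⟩ := mem_iUnion.1 h
  rw [div_lt_div_iff₀ (by positivity) (by positivity)] at hk1 hk2
  have e1 : (2 : ℝ) ^ t < 2 ^ (3 * 9 ^ k) := by
    have : (0 : ℝ) < 2 ^ (3 * 9 ^ k) := by positivity
    nlinarith
  have e2 : (2 : ℝ) ^ (9 ^ k) < 2 ^ (t + 1) := by
    have : (0 : ℝ) < 2 ^ (9 ^ k) := by positivity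
    rw [pow_succ]; nlinarith
  rw [pow_lt_pow_iff_right₀ (by norm_num)] at e1 e2
  have f1 : 9 ^ j < 9 ^ k := by omega
  have f2 : 9 ^ k < 9 ^ (j + 1) := by omega
  rw [Nat.pow_lt_pow_iff_right (by norm_num)] at f1 f2
  omega

theorem q1_homeo : ∃ (T : ℝ → ℝ) (R : Set ℝ), IsBrokenLinear T ∧ BijOn T (Icc 0 1) (Icc 0 1) ∧
    IsOpen R ∧ R ⊆ Icc 0 1 ∧
    ∀ p ∈ Ioo (0 : ℝ) 1, ¬ ∃ L, Tendsto (ergAvg T R p) atTop (𝓝 L) := by
  refine ⟨T0, R1, T0_broken, T0_bij, isOpen_iUnion fun j => isOpen_Ioo, ?_, ?_⟩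
  · intro x hx
    obtain ⟨k, hk1, hk2⟩ := mem_iUnion.1 hx
    have a : (0 : ℝ) < 1 / 2 ^ (3 * 9 ^ k) := by positivity
    have b : (1 : ℝ) / 2 ^ (9 ^ k) ≤ 1 := div_le_self zero_le_one (one_le_pow₀ (by norm_num))
    constructor <;> linarith
  · intro p hp
    obtain ⟨n, s, q, hq1, hq2, hq⟩ := T0_tail hp.1 hp.2
    refine no_limit (fun i => R1.indicator (fun _ => (1 : ℝ)) (T0^[i] p))
      (fun i => indicator_nonneg (fun _ _ => zero_le_one) _)
      (fun i => indicator_le_self' (fun _ _ => zero_le_one) _) (n + s + 1) ?_ ?_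
    · intro j i h1 h2
      obtain ⟨m, rfl⟩ : ∃ m, i = n + m := ⟨i - n, by omega⟩
      rw [hq, indicator_of_mem (mem_R1 q hq1 hq2 _ j (by omega) (by omega))]
    · intro j i h1 h2
      obtain ⟨m, rfl⟩ : ∃ m, i = n + m := ⟨i - n, by omega⟩
      rw [hq, indicator_of_notMem (not_mem_R1 q hq1 hq2 _ j (by omega) (by omega))]

def R2 : Set ℝ := ⋃ t : ℕ, {x | 1 / 2 < 2 ^ t * x ∧ 2 ^ t * x ≤ 1 ∧
  ⌊(t : ℝ) * (2 ^ t * x)⌋ < ⌊((t : ℝ) + 1) * (2 ^ t * x)⌋ ∧ x < 1}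

lemma R2_meas : MeasurableSet R2 := by
  refine MeasurableSet.iUnion fun t => ?_
  have m1 : Measurable fun x : ℝ => (2 : ℝ) ^ t * x := by fun_prop
  have m2 : Measurable fun x : ℝ => ⌊(t : ℝ) * (2 ^ t * x)⌋ :=
    Int.measurable_floor.comp (by fun_prop)
  have m3 : Measurable fun x : ℝ => ⌊((t : ℝ) + 1) * (2 ^ t * x)⌋ :=
    Int.measurable_floor.comp (by fun_prop)
  exact (measurableSet_lt measurable_const m1).inter
    ((measurableSet_le m1 measurable_const).inter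
    ((measurableSet_lt m2 m3).inter (measurableSet_lt measurable_id measurable_const)))

lemma ind_R2 (q : ℝ) (h1 : 1 / 2 < q) (h2 : q ≤ 1) (t : ℕ) (ht : 1 ≤ t) :
    R2.indicator (fun _ => (1 : ℝ)) (q / 2 ^ t) =
      (⌊((t : ℝ) + 1) * q⌋ : ℝ) - (⌊(t : ℝ) * q⌋ : ℝ) := by
  have hmem : q / 2 ^ t ∈ R2 ↔ ⌊(t : ℝ) * q⌋ < ⌊((t : ℝ) + 1) * q⌋ := by
    constructor
    · intro h
      obtain ⟨k, hk1, hk2, hk3, -⟩ := mem_iUnion.1 h
      have hpos : (0 : ℝ) < 2 ^ t := by positivity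
      have hpos' : (0 : ℝ) < 2 ^ k := by positivity
      rw [← mul_div_assoc] at hk1 hk2
      rw [lt_div_iff₀ hpos] at hk1
      rw [div_le_iff₀ hpos] at hk2
      have e1 : (2 : ℝ) ^ t < 2 ^ (k + 1) := by rw [pow_succ]; nlinarith
      have e2 : (2 : ℝ) ^ k < 2 ^ (t + 1) := by rw [pow_succ]; nlinarith
      rw [pow_lt_pow_iff_right₀ (by norm_num)] at e1 e2
      obtain rfl : k = t := by omega
      have : (2 : ℝ) ^ k * (q / 2 ^ k) = q := by field_simp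
      rwa [this] at hk3
    · intro h
      have : (2 : ℝ) ^ t * (q / 2 ^ t) = q := by field_simp
      refine mem_iUnion.2 ⟨t, ?_⟩
      simp only [mem_ofPred_eq, this]
      refine ⟨h1, h2, h, ?_⟩
      rw [div_lt_one (by positivity)]
      exact lt_of_le_of_lt h2 (one_lt_pow₀ (by norm_num) (by omega))
  have a1 : ⌊(t : ℝ) * q⌋ ≤ ⌊((t : ℝ) + 1) * q⌋ := Int.floor_mono (by linarith)
  have a2 : ⌊((t : ℝ) + 1) * q⌋ ≤ ⌊(t : ℝ) * q⌋ + 1 := by
    rw [← Int.floor_add_one]; exact Int.floor_mono (by linarith)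
  by_cases h : q / 2 ^ t ∈ R2
  · rw [indicator_of_mem h]
    have : ⌊((t : ℝ) + 1) * q⌋ = ⌊(t : ℝ) * q⌋ + 1 := by have := hmem.1 h; omega
    rw [this]; push_cast; ring
  · rw [indicator_of_notMem h]
    have : ⌊((t : ℝ) + 1) * q⌋ = ⌊(t : ℝ) * q⌋ := by have := mt hmem.2 h; omega
    rw [this]; ring

lemma limit_of_bound (S : ℕ → ℝ) (q C : ℝ) (n : ℕ) (h : ∀ m : ℕ, |S (n + m) - m * q| ≤ C) :
    Tendsto (fun N : ℕ => (1 / (N : ℝ)) * S N) atTop (𝓝 q) := by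
  have h1 : Tendsto (fun N : ℕ => (C + n * |q|) / (N : ℝ)) atTop (𝓝 0) :=
    tendsto_const_div_atTop_nhds_zero_nat _
  rw [tendsto_iff_norm_sub_tendsto_zero]
  refine squeeze_zero' (Eventually.of_forall fun _ => norm_nonneg _) ?_ h1
  filter_upwards [eventually_ge_atTop (n + 1)] with N hN
  obtain ⟨m, rfl⟩ : ∃ m, N = n + m := ⟨N - n, by omega⟩
  have hpos : (0 : ℝ) < ((n + m : ℕ) : ℝ) := by exact_mod_cast (by omega : 0 < n + m)
  have e : 1 / ((n + m : ℕ) : ℝ) * S (n + m) - q =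
      ((S (n + m) - m * q) - n * q) / ((n + m : ℕ) : ℝ) := by
    field_simp; push_cast; ring
  rw [e, Real.norm_eq_abs, abs_div, abs_of_pos hpos]
  gcongr
  refine le_trans (abs_sub _ _) ?_
  rw [abs_mul, Nat.abs_cast]
  linarith [h m]

lemma R2_limit {p q : ℝ} {n s : ℕ} (h1 : 1 / 2 < q) (h2 : q ≤ 1)
    (hq : ∀ i, T0^[n + i] p = q / 2 ^ (s + i)) : Tendsto (ergAvg T0 R2 p) atTop (𝓝 q) := by
  set S : ℕ → ℝ := fun N => ∑ i ∈ Finset.Icc 1 N, R2.indicator (fun _ => (1 : ℝ)) (T0^[i] p)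
    with hS
  have key : ∀ m : ℕ, S (n + m) = S n + (⌊((s : ℝ) + m + 1) * q⌋ : ℝ) - (⌊((s : ℝ) + 1) * q⌋ : ℝ) := by
    intro m
    induction m with
    | zero => simp
    | succ m ih =>
      have : S (n + (m + 1)) = S (n + m) + R2.indicator (fun _ => (1 : ℝ)) (T0^[n + (m + 1)] p) :=
        Finset.sum_Icc_succ_top (by omega) _
      rw [this, ih, hq, ind_R2 q h1 h2 _ (by omega)]
      push_cast
      ring_nf
  refine limit_of_bound S q (|S n| + 2) n fun m => ?_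
  rw [key]
  have a1 := Int.floor_le (((s : ℝ) + m + 1) * q)
  have a2 := Int.lt_floor_add_one (((s : ℝ) + m + 1) * q)
  have a3 := Int.floor_le (((s : ℝ) + 1) * q)
  have a4 := Int.lt_floor_add_one (((s : ℝ) + 1) * q)
  have a5 := le_abs_self (S n)
  have a6 := neg_abs_le (S n)
  rw [abs_le]
  constructor <;> nlinarith

lemma fixed_limit {p : ℝ} (hp : T0 p = p) (hR : p ∉ R2) :
    Tendsto (ergAvg T0 R2 p) atTop (𝓝 0) := by
  have : ergAvg T0 R2 p = fun _ => 0 := by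
    funext N
    unfold ergAvg
    rw [Finset.sum_eq_zero, mul_zero]
    intro i _
    rw [Function.iterate_fixed hp, indicator_of_notMem hR]
  rw [this]; exact tendsto_const_nhds

theorem q2_homeo : ∃ (T : ℝ → ℝ) (R : Set ℝ) (L : ℝ → ℝ), IsBrokenLinear T ∧
    BijOn T (Icc 0 1) (Icc 0 1) ∧ MeasurableSet R ∧ R ⊆ Icc 0 1 ∧
    (∀ p ∈ Icc (0 : ℝ) 1, Tendsto (ergAvg T R p) atTop (𝓝 (L p))) ∧
    ∀ E ⊆ Icc (0 : ℝ) 1, volume (Icc (0 : ℝ) 1 \ E) = 0 → ¬ (L '' E).Countable := by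
  have hex : ∀ p ∈ Icc (0 : ℝ) 1, ∃ l, Tendsto (ergAvg T0 R2 p) atTop (𝓝 l) := by
    intro p hp
    rcases eq_or_lt_of_le hp.1 with h0 | h0
    · refine ⟨0, fixed_limit (by rw [← h0, T0_low (by norm_num)]; norm_num) ?_⟩
      intro h
      obtain ⟨k, hk1, -⟩ := mem_iUnion.1 h
      rw [← h0] at hk1; norm_num at hk1
    rcases eq_or_lt_of_le hp.2 with h1 | h1
    · refine ⟨0, fixed_limit (by rw [h1, T0_high (by norm_num)]; norm_num) ?_⟩
      intro h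
      obtain ⟨k, -, -, -, hk⟩ := mem_iUnion.1 h
      linarith
    obtain ⟨n, s, q, hq1, hq2, hq⟩ := T0_tail h0 h1
    exact ⟨q, R2_limit hq1 hq2 hq⟩
  choose! L hL using hex
  refine ⟨T0, R2, L, T0_broken, T0_bij, R2_meas, ?_, hL, ?_⟩
  · intro x hx
    obtain ⟨k, hk1, -, -, hk⟩ := mem_iUnion.1 hx
    refine ⟨?_, hk.le⟩
    by_contra hc
    have : (2 : ℝ) ^ k * x ≤ 0 := mul_nonpos_of_nonneg_of_nonpos (by positivity) (by linarith)
    linarith
  · intro E _ hE hc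
    have hval : ∀ p ∈ Ioc (1 / 4 : ℝ) (1 / 2), L p = 2 * p := by
      intro p hp
      refine tendsto_nhds_unique (hL p ⟨by linarith [hp.1], by linarith [hp.2]⟩)
        (R2_limit (n := 0) (s := 1) (by linarith [hp.1]) (by linarith [hp.2]) fun i => ?_)
      rw [zero_add, T0_iter_low (by linarith [hp.1]) hp.2, pow_add]
      field_simp
    have hc2 : (E ∩ Ioc (1 / 4 : ℝ) (1 / 2)).Countable := by
      refine Countable.mono ?_ (hc.image fun y => y / 2)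
      intro p hp
      exact ⟨L p, ⟨p, hp.1, rfl⟩, by rw [hval p hp.2]; ring⟩
    have h0 : volume (E ∩ Ioc (1 / 4 : ℝ) (1 / 2)) = 0 := hc2.measure_zero _
    have h1 : volume (Ioc (1 / 4 : ℝ) (1 / 2)) = 0 := by
      refine measure_mono_null ?_ (measure_union_null h0 hE)
      intro p hp
      by_cases h : p ∈ E
      · exact Or.inl ⟨h, hp⟩
      · exact Or.inr ⟨⟨by linarith [hp.1], by linarith [hp.2]⟩, h⟩
    rw [Real.volume_Ioc, ENNReal.ofReal_eq_zero] at h1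
    linarith

end Pool.Agent.MP_8df504_an
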