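import Mathlib

set_option autoImplicit false

namespace Pool.Agent.MP_8df504_an

open Set

/-- `T` has a periodic point `q` in `[0,1]` that attracts from at least one side: some iterate
`T^p` is the contraction `y ↦ q + σ (y - q)`, `0 < σ < 1`, on a segment from `q` to `q' ≠ q`. -/
def HasAttr (T : ℝ → ℝ) : Prop :=
  ∃ p : ℕ, 1 ≤ p ∧ ∃ q ∈ Icc (0 : ℝ) 1, ∃ q' ∈ Icc (0 : ℝ) 1, q ≠ q' ∧
    ∃ σ : ℝ, 0 < σ ∧ σ < 1 ∧ ∀ y ∈ uIcc q q', T^[p] y = q + σ * (y - q)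

/-- whenever `T` is constant on a nondegenerate interval `[u,v] ⊆ [0,1]`, the orbit of `u` is
eventually periodic. -/
def FlatEvPer (T : ℝ → ℝ) : Prop :=
  ∀ u v : ℝ, 0 ≤ u → u < v → v ≤ 1 → (∀ y ∈ Icc u v, T y = T u) →
    ∃ i p : ℕ, 1 ≤ p ∧ T^[i + p] u = T^[i] u

end Pool.Agent.MP_8df504_an
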