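import Mathlib
import Pool.Agent.MP_8df504_an.Proofs

set_option autoImplicit false

namespace Pool.Agent.MP_8df504_an

open Set Filter Topology MeasureTheory

noncomputable def T1 (c x : ℝ) : ℝ :=
  3 * x - (3 + 9 * (1 - c)) * max (x - 1 / 3) 0 + 9 * (1 - c) * max (x - 4 / 9) 0
    - 9 * c * max (x - 5 / 9) 0 + (9 * c + 3) * max (x - 2 / 3) 0

lemma T1_a (c : ℝ) {x : ℝ} (h : x ≤ 1 / 3) : T1 c x = 3 * x := by
  unfold T1
  rw [max_eq_right (by linarith), max_eq_right (by linarith), max_eq_right (by linarith),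
    max_eq_right (by linarith)]
  ring

lemma T1_b (c : ℝ) {x : ℝ} (h : 1 / 3 ≤ x) (h' : x ≤ 4 / 9) :
    T1 c x = -(9 * (1 - c)) * x + (1 + 3 * (1 - c)) := by
  unfold T1
  rw [max_eq_left (by linarith), max_eq_right (by linarith), max_eq_right (by linarith),
    max_eq_right (by linarith)]
  ring

lemma T1_c (c : ℝ) {x : ℝ} (h : 4 / 9 ≤ x) (h' : x ≤ 5 / 9) : T1 c x = c := by
  unfold T1
  rw [max_eq_left (by linarith), max_eq_left (by linarith), max_eq_right (by linarith),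
    max_eq_right (by linarith)]
  ring

lemma T1_d (c : ℝ) {x : ℝ} (h : 5 / 9 ≤ x) (h' : x ≤ 2 / 3) :
    T1 c x = -(9 * c) * x + 6 * c := by
  unfold T1
  rw [max_eq_left (by linarith), max_eq_left (by linarith), max_eq_left (by linarith),
    max_eq_right (by linarith)]
  ring

lemma T1_e (c : ℝ) {x : ℝ} (h : 2 / 3 ≤ x) : T1 c x = 3 * x - 2 := by
  unfold T1
  rw [max_eq_left (by linarith), max_eq_left (by linarith), max_eq_left (by linarith),
    max_eq_left (by linarith)]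
  ring

lemma T1_broken (c : ℝ) (h0 : 0 ≤ c) (h1 : c ≤ 1) : IsBrokenLinear (T1 c) := by
  refine ⟨by unfold T1; fun_prop, ?_, 5, ![0, 1 / 3, 4 / 9, 5 / 9, 2 / 3, 1], ?_, rfl, rfl, ?_⟩
  · intro x hx
    obtain ⟨hx0, hx1⟩ := hx
    rcases le_total x (1 / 3) with a | a
    · rw [T1_a c a]; constructor <;> linarith
    rcases le_total x (4 / 9) with b | b
    · rw [T1_b c a b]; constructor <;> nlinarith
    rcases le_total x (5 / 9) with d | d
    · rw [T1_c c b d]; exact ⟨h0, h1⟩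
    rcases le_total x (2 / 3) with e | e
    · rw [T1_d c d e]; constructor <;> nlinarith
    · rw [T1_e c e]; constructor <;> linarith
  · rw [Fin.strictMono_iff_lt_succ]
    intro i
    fin_cases i <;> simp <;> norm_num
  · intro j
    fin_cases j
    · exact ⟨3, 0, fun x hx => by rw [T1_a c (by simpa using hx.2)]; ring⟩
    · exact ⟨_, _, fun x hx => T1_b c (by simpa using hx.1) (by simpa using hx.2)⟩
    · exact ⟨0, c, fun x hx => by rw [T1_c c (by simpa using hx.1) (by simpa using hx.2)]; ring⟩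
    · exact ⟨_, _, fun x hx => T1_d c (by simpa using hx.1) (by simpa using hx.2)⟩
    · exact ⟨3, -2, fun x hx => by rw [T1_e c (by simpa using hx.1)]; ring⟩

open Classical in
noncomputable def dig (i : ℕ) : ℝ := if ∃ j : ℕ, 9 ^ j ≤ i ∧ i < 3 * 9 ^ j then 0 else 1

lemma dig_mem (i : ℕ) : dig i = 0 ∨ dig i = 1 := by
  unfold dig; split_ifs <;> simp

noncomputable def pt (i : ℕ) : ℝ := ∑' k : ℕ, dig (i + k) * (2 / 3 * (1 / 3) ^ k)

lemma geo_sum : HasSum (fun k : ℕ => (2 / 3 * (1 / 3) ^ k : ℝ)) 1 := by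
  have := (hasSum_geometric_of_lt_one (r := (1 / 3 : ℝ)) (by norm_num) (by norm_num)).mul_left
    (2 / 3)
  have e : (2 / 3 * (1 - 1 / 3)⁻¹ : ℝ) = 1 := by norm_num
  rwa [e] at this

lemma term_le (i k : ℕ) : dig (i + k) * (2 / 3 * (1 / 3) ^ k) ≤ (2 / 3 * (1 / 3) ^ k : ℝ) := by
  have : (0 : ℝ) ≤ 2 / 3 * (1 / 3) ^ k := by positivity
  rcases dig_mem (i + k) with h | h <;> rw [h] <;> linarith

lemma term_nonneg (i k : ℕ) : 0 ≤ dig (i + k) * (2 / 3 * (1 / 3) ^ k) := by
  have : (0 : ℝ) ≤ 2 / 3 * (1 / 3) ^ k := by positivity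
  rcases dig_mem (i + k) with h | h <;> rw [h] <;> linarith

lemma pt_summable (i : ℕ) : Summable fun k : ℕ => dig (i + k) * (2 / 3 * (1 / 3) ^ k) :=
  Summable.of_nonneg_of_le (term_nonneg i) (term_le i) geo_sum.summable

lemma pt_nonneg (i : ℕ) : 0 ≤ pt i := tsum_nonneg (term_nonneg i)

lemma pt_le (i : ℕ) : pt i ≤ 1 := by
  rw [← geo_sum.tsum_eq]
  exact (pt_summable i).tsum_le_tsum (term_le i) geo_sum.summable

lemma pt_succ (i : ℕ) : pt i = (2 * dig i + pt (i + 1)) / 3 := by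
  unfold pt
  rw [(pt_summable i).tsum_eq_zero_add, add_div, ← tsum_div_const]
  congr 1
  · simp; ring
  · congr 1; funext k
    rw [add_assoc, add_comm 1 k, pow_succ]; ring

lemma T1_pt (c : ℝ) (i : ℕ) : T1 c (pt i) = pt (i + 1) := by
  have h := pt_succ i
  have h0 := pt_nonneg (i + 1)
  have h1 := pt_le (i + 1)
  rcases dig_mem i with e | e <;> rw [e] at h
  · rw [T1_a c (by linarith)]; linarith
  · rw [T1_e c (by linarith)]; linarith

theorem q1_interval : ∃ T : ℝ → ℝ, IsBrokenLinear T ∧ SurjOn T (Icc 0 1) (Icc 0 1) ∧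
    ∀ p ∈ Icc (4 / 9 : ℝ) (5 / 9), ¬ ∃ L, Tendsto (ergAvg T (Icc 0 (1 / 2)) p) atTop (𝓝 L) := by
  refine ⟨T1 (pt 1), T1_broken _ (pt_nonneg 1) (pt_le 1), ?_, ?_⟩
  · intro y hy
    exact ⟨y / 3, ⟨by linarith [hy.1], by linarith [hy.2]⟩,
      by rw [T1_a _ (by linarith [hy.2])]; ring⟩
  · intro p hp
    have horb : ∀ i, (T1 (pt 1))^[i + 1] p = pt (i + 1) := by
      intro i
      induction i with
      | zero => exact T1_c _ hp.1 hp.2
      | succ i ih => rw [Function.iterate_succ_apply', ih, T1_pt]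
    refine no_limit (fun i => (Icc (0 : ℝ) (1 / 2)).indicator (fun _ => (1 : ℝ)) ((T1 (pt 1))^[i] p))
      (fun i => indicator_nonneg (fun _ _ => zero_le_one) _)
      (fun i => indicator_le_self' (fun _ _ => zero_le_one) _) 1 ?_ ?_
    · intro j i h1 h2
      obtain ⟨m, rfl⟩ : ∃ m, i = m + 1 := ⟨i - 1, by omega⟩
      have e : dig (m + 1) = 0 := if_pos ⟨j, by omega, by omega⟩
      have h := pt_succ (m + 1)
      rw [e] at h
      rw [horb, indicator_of_mem]
      exact ⟨pt_nonneg _, by linarith [pt_le (m + 1 + 1)]⟩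
    · intro j i h1 h2
      obtain ⟨m, rfl⟩ : ∃ m, i = m + 1 := ⟨i - 1, by omega⟩
      have e : dig (m + 1) = 1 := by
        refine if_neg ?_
        rintro ⟨k, k1, k2⟩
        have f1 : 9 ^ j < 9 ^ k := by omega
        have f2 : 9 ^ k < 9 ^ (j + 1) := by omega
        rw [Nat.pow_lt_pow_iff_right (by norm_num)] at f1 f2
        omega
      have h := pt_succ (m + 1)
      rw [e] at h
      rw [horb, indicator_of_notMem]
      intro hc
      linarith [hc.2, pt_nonneg (m + 1 + 1)]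

end Pool.Agent.MP_8df504_an
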